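import Pool.Agent.L7h70.SB.Stm0

/-!
# Project SB, [CNT]: counting the close tuples
-/

set_option autoImplicit false

open Set Filter Topology Finset

namespace Pool.Agent.L7h22.SB

open Pool.Agent.L7h70.SB

/-- the injective tuples of a finite set -/
noncomputable def tup (n : ℕ) (J : Finset ℕ) : Finset (Fin n → ℕ) :=
  (Finset.univ : Finset (Fin n ↪ J)).image (fun e i => (e i : ℕ))

lemma mem_tup {n : ℕ} {J : Finset ℕ} {σ : Fin n → ℕ} (h : σ ∈ tup n J) :
    Function.Injective σ ∧ ∀ i, σ i ∈ J := by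
  rw [tup, Finset.mem_image] at h
  obtain ⟨e, -, rfl⟩ := h
  exact ⟨fun i j hij => e.injective (Subtype.ext hij), fun i => (e i).2⟩

lemma card_tup (n : ℕ) (J : Finset ℕ) : (tup n J).card = J.card.descFactorial n := by
  rw [tup, Finset.card_image_of_injective, Finset.card_univ, Fintype.card_embedding_eq,
    Fintype.card_coe, Fintype.card_fin]
  intro e e' h
  ext i
  exact congrFun h i

theorem s_CNT : S_CNT := by
  intro x κ hκ hcl n s hs
  set δ := min (s / 4) (κ / 2) with hδ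
  have hδ0 : 0 < δ := lt_min (by positivity) (by positivity)
  have hδs : δ ≤ s / 4 := min_le_left _ _
  have hδκ : δ ≤ κ / 2 := min_le_right _ _
  obtain ⟨γ, hγ, L, hL⟩ := hcl δ hδ0
  choose! J hJ1 hJ2 using hL
  set b : ℝ := (2 * Real.sqrt κ)⁻¹ with hb
  have hsκ : 0 < Real.sqrt κ := Real.sqrt_pos.2 hκ
  have hb0 : 0 < b := by positivity
  have hb2 : κ * b ^ 2 = 1 / 4 := by
    rw [hb, inv_pow, mul_pow, Real.sq_sqrt hκ.le]
    field_simp
    norm_num
  refine ⟨1 / 2 * (γ / 4) ^ (n + 2) * (b / 2) ^ (n + 3), by positivity, ?_⟩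
  have hlarge : ∀ᶠ T : ℝ in atTop, 2 ≤ b * Real.sqrt T ∧ δ < T / 2 ∧ (2 * L + 2 : ℝ) ≤ b / 2 * Real.sqrt T ∧
      4 * (n + 2) / γ ≤ b / 2 * Real.sqrt T := by
    have h1 : Tendsto (fun T : ℝ => b * Real.sqrt T) atTop atTop :=
      Real.tendsto_sqrt_atTop.const_mul_atTop hb0
    have h2 : Tendsto (fun T : ℝ => b / 2 * Real.sqrt T) atTop atTop :=
      Real.tendsto_sqrt_atTop.const_mul_atTop (by positivity)
    filter_upwards [h1.eventually_ge_atTop 2, eventually_gt_atTop (2 * δ),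
      h2.eventually_ge_atTop (2 * L + 2 : ℝ), h2.eventually_ge_atTop (4 * (n + 2) / γ)] with T a1 a2 a3 a4
    exact ⟨a1, by linarith, a3, a4⟩
  filter_upwards [hlarge, eventually_gt_atTop 0] with T hT hT0
  obtain ⟨hT1, hT2, hT3, hT4⟩ := hT
  set M : ℕ := ⌊b * Real.sqrt T⌋₊ with hM
  have hsT : 0 ≤ Real.sqrt T := Real.sqrt_nonneg T
  have hMle : (M : ℝ) ≤ b * Real.sqrt T := Nat.floor_le (by positivity)
  have hMge : b / 2 * Real.sqrt T ≤ M := by
    have := Nat.lt_floor_add_one (b * Real.sqrt T)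
    rw [← hM] at this
    linarith
  have hM2 : κ * ((M : ℝ) * (M + 1)) ≤ T / 2 := by
    have hM1 : (1 : ℝ) ≤ M := by
      have : (2 * L + 2 : ℝ) ≤ M := hT3.trans hMge
      have : (0 : ℝ) ≤ L := Nat.cast_nonneg L
      linarith
    have h1 : (M : ℝ) * (M + 1) ≤ 2 * (b * Real.sqrt T) ^ 2 := by nlinarith
    have h2 : (b * Real.sqrt T) ^ 2 = b ^ 2 * T := by rw [mul_pow, Real.sq_sqrt hT0.le]
    calc κ * ((M : ℝ) * (M + 1)) ≤ κ * (2 * (b ^ 2 * T)) := by
          rw [← h2]; exact mul_le_mul_of_nonneg_left h1 hκ.le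
      _ = 2 * (κ * b ^ 2) * T := by ring
      _ = T / 2 := by rw [hb2]; ring
  classical
  have hLM : ∀ l ∈ Finset.Ioc (M / 2) M, L ≤ l := by
    intro l hl
    rw [Finset.mem_Ioc] at hl
    have h1 : (2 * L + 2 : ℝ) ≤ M := hT3.trans hMge
    have h2 : 2 * L + 2 ≤ M := by exact_mod_cast h1
    omega
  have hdisj : ∀ l ∈ Finset.Ioc (M / 2) M, ∀ l' ∈ Finset.Ioc (M / 2) M, l ≠ l' →
      Disjoint (tup (n + 2) (J l)) (tup (n + 2) (J l')) := by
    intro l hl l' hl' hne
    rw [Finset.disjoint_left]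
    intro σ hσ hσ'
    have h1 := hJ2 l (hLM l hl) _ ((mem_tup hσ).2 0)
    have h2 := hJ2 l' (hLM l' hl') _ ((mem_tup hσ').2 0)
    have h3 : |κ * ((l : ℝ) * (l + 1)) - κ * (l' * (l' + 1))| ≤ κ := by
      have e : κ * ((l : ℝ) * (l + 1)) - κ * (l' * (l' + 1)) =
          (x (σ 0) - κ * (l' * (l' + 1))) - (x (σ 0) - κ * (l * (l + 1))) := by ring
      rw [e]
      refine (abs_sub _ _).trans ?_
      linarith
    have h4 : |((l : ℝ) - l') * (l + l' + 1)| ≤ 1 := by
      have e : κ * ((l : ℝ) * (l + 1)) - κ * (l' * (l' + 1)) = κ * (((l : ℝ) - l') * (l + l' + 1)) := by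
        ring
      rw [e, abs_mul, abs_of_pos hκ] at h3
      by_contra hcon
      rw [not_le] at hcon
      nlinarith
    have h5 : |((l : ℤ) - l') * (l + l' + 1)| ≤ 1 := by exact_mod_cast h4
    rw [abs_mul] at h5
    have h6 : 1 ≤ |(l : ℤ) - l'| := Int.one_le_abs (by omega)
    have h7 : 2 ≤ |(l : ℤ) + l' + 1| := by
      rw [abs_of_nonneg (by positivity)]
      rw [Finset.mem_Ioc] at hl hl'
      omega
    nlinarith
  refine ⟨(Finset.Ioc (M / 2) M).biUnion fun l => tup (n + 2) (J l), ?_, ?_⟩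
  · intro σ hσ
    rw [Finset.mem_biUnion] at hσ
    obtain ⟨l, hl, hσ⟩ := hσ
    obtain ⟨hinj, hmem⟩ := mem_tup hσ
    have hx : ∀ i, |x (σ i) - κ * (l * (l + 1))| ≤ δ := fun i => hJ2 l (hLM l hl) _ (hmem i)
    refine ⟨hinj, fun i => ?_, fun i j => ?_⟩
    · have h1 := (abs_le.1 (hx i)).2
      have h2 : (l : ℝ) ≤ M := by exact_mod_cast (Finset.mem_Ioc.1 hl).2
      have h3 : κ * ((l : ℝ) * (l + 1)) ≤ κ * ((M : ℝ) * (M + 1)) := by
        have : (0 : ℝ) ≤ l := Nat.cast_nonneg l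
        gcongr
      linarith
    · have e : x (σ i) - x (σ j) = (x (σ i) - κ * (l * (l + 1))) - (x (σ j) - κ * (l * (l + 1))) := by
        ring
      rw [e]
      refine lt_of_le_of_lt (abs_sub _ _) ?_
      have := hx i
      have := hx j
      linarith
  · rw [Finset.card_biUnion hdisj]
    push_cast
    have hterm : ∀ l ∈ Finset.Ioc (M / 2) M, (γ / 4 * M) ^ (n + 2) ≤ ((tup (n + 2) (J l)).card : ℝ) := by
      intro l hl
      have h1 := hJ1 l (hLM l hl)
      have h2 : (M : ℝ) / 2 ≤ l := by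
        rw [Finset.mem_Ioc] at hl
        have : M ≤ 2 * l := by omega
        have : (M : ℝ) ≤ 2 * l := by exact_mod_cast this
        linarith
      have h3 : 4 * (n + 2) / γ ≤ (M : ℝ) := hT4.trans hMge
      have h4 : 4 * ((n : ℝ) + 2) ≤ γ * M := by
        rw [div_le_iff₀ hγ] at h3
        linarith
      have h5 : γ / 4 * M + (n + 2) ≤ (J l).card := by nlinarith
      rw [card_tup]
      have h6 : ((J l).card + 1 - (n + 2)) ^ (n + 2) ≤ (J l).card.descFactorial (n + 2) :=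
        Nat.pow_sub_le_descFactorial _ _
      have h7 : γ / 4 * M ≤ (((J l).card + 1 - (n + 2) : ℕ) : ℝ) := by
        have h8 : n + 2 ≤ (J l).card + 1 := by
          have : ((n : ℝ) + 2) ≤ (J l).card := by
            have : 0 ≤ γ / 4 * M := by positivity
            linarith
          have : n + 2 ≤ (J l).card := by exact_mod_cast this
          omega
        rw [Nat.cast_sub h8]
        push_cast
        linarith
      calc (γ / 4 * M) ^ (n + 2) ≤ (((J l).card + 1 - (n + 2) : ℕ) : ℝ) ^ (n + 2) :=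
            pow_le_pow_left₀ (by positivity) h7 _
        _ ≤ _ := by exact_mod_cast h6
    have hcard : (M : ℝ) / 2 ≤ (Finset.Ioc (M / 2) M).card := by
      rw [Nat.card_Ioc]
      have h1 : M ≤ 2 * (M - M / 2) := by omega
      have : (M : ℝ) ≤ 2 * ((M - M / 2 : ℕ) : ℝ) := by exact_mod_cast h1
      linarith
    have hsum : (M : ℝ) / 2 * (γ / 4 * M) ^ (n + 2) ≤
        ∑ l ∈ Finset.Ioc (M / 2) M, ((tup (n + 2) (J l)).card : ℝ) := by
      calc (M : ℝ) / 2 * (γ / 4 * M) ^ (n + 2) ≤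
            (Finset.Ioc (M / 2) M).card * (γ / 4 * M) ^ (n + 2) :=
            mul_le_mul_of_nonneg_right hcard (by positivity)
        _ = ∑ l ∈ Finset.Ioc (M / 2) M, (γ / 4 * M) ^ (n + 2) := by
            rw [Finset.sum_const, nsmul_eq_mul]
        _ ≤ _ := Finset.sum_le_sum hterm
    refine le_trans ?_ hsum
    have hTp : T ^ (((n : ℝ) + 3) / 2) = Real.sqrt T ^ (n + 3) := by
      rw [Real.sqrt_eq_rpow, ← Real.rpow_natCast, ← Real.rpow_mul hT0.le]
      congr 1
      push_cast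
      ring
    rw [hTp]
    have e1 : 1 / 2 * (γ / 4) ^ (n + 2) * (b / 2) ^ (n + 3) * Real.sqrt T ^ (n + 3) =
        1 / 2 * (γ / 4) ^ (n + 2) * (b / 2 * Real.sqrt T) ^ (n + 3) := by
      rw [mul_pow]; ring
    have e2 : (M : ℝ) / 2 * (γ / 4 * M) ^ (n + 2) = 1 / 2 * (γ / 4) ^ (n + 2) * (M : ℝ) ^ (n + 3) := by
      rw [mul_pow, pow_succ (M : ℝ) (n + 2)]; ring
    rw [e1, e2]
    apply mul_le_mul_of_nonneg_left _ (by positivity)
    exact pow_le_pow_left₀ (by positivity) hMge _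

end Pool.Agent.L7h22.SB
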