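import Pool.Agent.L7h70.SB.Stm3

/-!
# Project SB, [GAP]: small gaps
-/

set_option autoImplicit false

open Set Filter Topology Finset

namespace Pool.Agent.L7h22.SB

open Pool.Agent.L7h70.SB

/-- many small gaps in an interval -/
lemma small_gaps {x : ℕ → ℝ} (hx : Monotone x) {p q : ℕ} (hpq : p ≤ q) {ε D : ℝ} (hε : 0 < ε)
    (h : x q - x p ≤ D) :
    ((q : ℝ) - p) - D / ε ≤ (((Finset.Ico p q).filter fun k => x (k + 1) - x k < ε).card : ℝ) := by
  classical
  have h1 : ∑ k ∈ Finset.Ico p q, (x (k + 1) - x k) = x q - x p := Finset.sum_Ico_sub x hpq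
  have h2 : (((Finset.Ico p q).filter fun k => ¬ x (k + 1) - x k < ε).card : ℝ) * ε ≤ D := by
    calc (((Finset.Ico p q).filter fun k => ¬ x (k + 1) - x k < ε).card : ℝ) * ε =
          ∑ k ∈ (Finset.Ico p q).filter fun k => ¬ x (k + 1) - x k < ε, ε := by
          rw [Finset.sum_const, nsmul_eq_mul]
      _ ≤ ∑ k ∈ (Finset.Ico p q).filter fun k => ¬ x (k + 1) - x k < ε, (x (k + 1) - x k) := by
          refine Finset.sum_le_sum fun k hk => ?_
          exact not_lt.1 (Finset.mem_filter.1 hk).2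
      _ ≤ ∑ k ∈ Finset.Ico p q, (x (k + 1) - x k) := by
          refine Finset.sum_le_sum_of_subset_of_nonneg (Finset.filter_subset _ _) fun k _ _ => ?_
          exact sub_nonneg.2 (hx (Nat.le_succ k))
      _ ≤ D := by rw [h1]; exact h
  have h3 : ((Finset.Ico p q).filter fun k => x (k + 1) - x k < ε).card +
      ((Finset.Ico p q).filter fun k => ¬ x (k + 1) - x k < ε).card = q - p := by
    rw [Finset.card_filter_add_card_filter_not, Nat.card_Ico]
  have h4 : (((Finset.Ico p q).filter fun k => x (k + 1) - x k < ε).card : ℝ) +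
      (((Finset.Ico p q).filter fun k => ¬ x (k + 1) - x k < ε).card : ℝ) = (q : ℝ) - p := by
    rw [← Nat.cast_sub hpq]
    exact_mod_cast h3
  have h5 : (((Finset.Ico p q).filter fun k => ¬ x (k + 1) - x k < ε).card : ℝ) ≤ D / ε := by
    rw [le_div_iff₀ hε]
    exact h2
  linarith

theorem s_GAP : S_GAP := by
  intro x κ hκ hx _ hcl
  set δ := κ / 4 with hδ
  have hδ0 : 0 < δ := by positivity
  obtain ⟨γ, hγ, L, hL⟩ := hcl δ hδ0
  choose! J hJ1 hJ2 using hL
  set b : ℝ := (2 * Real.sqrt κ)⁻¹ with hb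
  have hsκ : 0 < Real.sqrt κ := Real.sqrt_pos.2 hκ
  have hb0 : 0 < b := by positivity
  have hb2 : κ * b ^ 2 = 1 / 4 := by
    rw [hb, inv_pow, mul_pow, Real.sq_sqrt hκ.le]
    field_simp
    norm_num
  set C : ℝ := 32 * δ / (γ * b) with hC
  have hC0 : 0 < C := by positivity
  refine ⟨γ * b ^ 2 / 32, C, by positivity, hC0, ?_⟩
  have hlarge : ∀ᶠ T : ℝ in atTop, 2 ≤ b * Real.sqrt T ∧ δ < T / 2 ∧
      (2 * L + 2 : ℝ) ≤ b / 2 * Real.sqrt T ∧ 1 ≤ γ * b / 16 * Real.sqrt T := by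
    have h1 : Tendsto (fun T : ℝ => b * Real.sqrt T) atTop atTop :=
      Real.tendsto_sqrt_atTop.const_mul_atTop hb0
    have h2 : Tendsto (fun T : ℝ => b / 2 * Real.sqrt T) atTop atTop :=
      Real.tendsto_sqrt_atTop.const_mul_atTop (by positivity)
    have h3 : Tendsto (fun T : ℝ => γ * b / 16 * Real.sqrt T) atTop atTop :=
      Real.tendsto_sqrt_atTop.const_mul_atTop (by positivity)
    filter_upwards [h1.eventually_ge_atTop 2, eventually_gt_atTop (2 * δ),
      h2.eventually_ge_atTop (2 * L + 2 : ℝ), h3.eventually_ge_atTop 1] with T a1 a2 a3 a4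
    exact ⟨a1, by linarith, a3, a4⟩
  filter_upwards [hlarge, eventually_gt_atTop 0] with T hT hT0
  obtain ⟨hT1, hT2, hT3, hT4⟩ := hT
  set M : ℕ := ⌊b * Real.sqrt T⌋₊ with hM
  have hsT : 0 < Real.sqrt T := Real.sqrt_pos.2 hT0
  have hMle : (M : ℝ) ≤ b * Real.sqrt T := Nat.floor_le (by positivity)
  have hMge : b / 2 * Real.sqrt T ≤ M := by
    have := Nat.lt_floor_add_one (b * Real.sqrt T)
    rw [← hM] at this
    linarith
  have hM2 : κ * ((M : ℝ) * (M + 1)) ≤ T / 2 := by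
    have hM1 : (1 : ℝ) ≤ M := by
      have : (2 * L + 2 : ℝ) ≤ M := hT3.trans hMge
      have : (0 : ℝ) ≤ L := Nat.cast_nonneg L
      linarith
    have h1 : (M : ℝ) * (M + 1) ≤ 2 * (b * Real.sqrt T) ^ 2 := by nlinarith
    have h2 : (b * Real.sqrt T) ^ 2 = b ^ 2 * T := by rw [mul_pow, Real.sq_sqrt hT0.le]
    calc κ * ((M : ℝ) * (M + 1)) ≤ κ * (2 * (b ^ 2 * T)) := by
          rw [← h2]; exact mul_le_mul_of_nonneg_left h1 hκ.le
      _ = 2 * (κ * b ^ 2) * T := by ring
      _ = T / 2 := by rw [hb2]; ring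
  classical
  have hLM : ∀ l ∈ Finset.Ioc (M / 2) M, L ≤ l := by
    intro l hl
    rw [Finset.mem_Ioc] at hl
    have h1 : (2 * L + 2 : ℝ) ≤ M := hT3.trans hMge
    have h2 : 2 * L + 2 ≤ M := by exact_mod_cast h1
    omega
  have hl2 : ∀ l ∈ Finset.Ioc (M / 2) M, γ * b / 4 * Real.sqrt T ≤ γ * l := by
    intro l hl
    rw [Finset.mem_Ioc] at hl
    have h1 : M ≤ 2 * l := by omega
    have h2 : (M : ℝ) ≤ 2 * l := by exact_mod_cast h1
    have h3 : b / 4 * Real.sqrt T ≤ l := by linarith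
    calc γ * b / 4 * Real.sqrt T = γ * (b / 4 * Real.sqrt T) := by ring
      _ ≤ γ * l := mul_le_mul_of_nonneg_left h3 hγ.le
  have hne : ∀ l ∈ Finset.Ioc (M / 2) M, (J l).Nonempty := by
    intro l hl
    rw [← Finset.card_pos]
    have h1 := hJ1 l (hLM l hl)
    have h2 := hl2 l hl
    have h3 : 0 < γ * b / 4 * Real.sqrt T := by positivity
    have h4 : (0 : ℝ) < (J l).card := by linarith
    exact_mod_cast h4
  have hpq : ∀ l : ℕ, ∃ p q : ℕ, l ∈ Finset.Ioc (M / 2) M → p ≤ q ∧ p ∈ J l ∧ q ∈ J l ∧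
      (J l).card ≤ q - p + 1 := by
    intro l
    by_cases hl : l ∈ Finset.Ioc (M / 2) M
    · refine ⟨(J l).min' (hne l hl), (J l).max' (hne l hl), fun _ => ⟨?_, ?_, ?_, ?_⟩⟩
      · exact Finset.min'_le_max' _ _
      · exact Finset.min'_mem _ _
      · exact Finset.max'_mem _ _
      · have h1 : J l ⊆ Finset.Icc ((J l).min' (hne l hl)) ((J l).max' (hne l hl)) := by
          intro j hj
          rw [Finset.mem_Icc]
          exact ⟨Finset.min'_le _ _ hj, Finset.le_max' _ _ hj⟩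
        have h2 := Finset.card_le_card h1
        rw [Nat.card_Icc] at h2
        have h3 : (J l).min' (hne l hl) ≤ (J l).max' (hne l hl) := Finset.min'_le_max' _ _
        omega
    · exact ⟨0, 0, fun h => absurd h hl⟩
  choose p q hpq using hpq
  set ε : ℝ := C / Real.sqrt T with hε
  have hε0 : 0 < ε := by positivity
  set A : ℕ → Finset ℕ := fun l => (Finset.Ico (p l) (q l)).filter fun k => x (k + 1) - x k < ε with hA
  have hin : ∀ l ∈ Finset.Ioc (M / 2) M, ∀ k ∈ A l, |x k - κ * (l * (l + 1))| ≤ δ ∧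
      x (k + 1) ≤ κ * (l * (l + 1)) + δ := by
    intro l hl k hk
    obtain ⟨h1, h2, h3, -⟩ := hpq l hl
    rw [hA, Finset.mem_filter, Finset.mem_Ico] at hk
    obtain ⟨⟨hk1, hk2⟩, -⟩ := hk
    have e1 := (abs_le.1 (hJ2 l (hLM l hl) _ h2)).1
    have e2 := (abs_le.1 (hJ2 l (hLM l hl) _ h3)).2
    have e3 := hx hk1
    have e4 := hx (Nat.succ_le_of_lt hk2)
    have e5 := hx (Nat.le_succ k)
    refine ⟨abs_le.2 ⟨by linarith, by linarith⟩, by linarith⟩
  have hdisj : ∀ l ∈ Finset.Ioc (M / 2) M, ∀ l' ∈ Finset.Ioc (M / 2) M, l ≠ l' →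
      Disjoint (A l) (A l') := by
    intro l hl l' hl' hne
    rw [Finset.disjoint_left]
    intro k hk hk'
    have h1 := (hin l hl k hk).1
    have h2 := (hin l' hl' k hk').1
    have h3 : |κ * ((l : ℝ) * (l + 1)) - κ * (l' * (l' + 1))| ≤ κ := by
      have e : κ * ((l : ℝ) * (l + 1)) - κ * (l' * (l' + 1)) =
          (x k - κ * (l' * (l' + 1))) - (x k - κ * (l * (l + 1))) := by ring
      rw [e]
      refine (abs_sub _ _).trans ?_
      linarith
    have h4 : |((l : ℝ) - l') * (l + l' + 1)| ≤ 1 := by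
      have e : κ * ((l : ℝ) * (l + 1)) - κ * (l' * (l' + 1)) = κ * (((l : ℝ) - l') * (l + l' + 1)) := by
        ring
      rw [e, abs_mul, abs_of_pos hκ] at h3
      by_contra hcon
      rw [not_le] at hcon
      nlinarith
    have h5 : |((l : ℤ) - l') * (l + l' + 1)| ≤ 1 := by exact_mod_cast h4
    rw [abs_mul] at h5
    have h6 : 1 ≤ |(l : ℤ) - l'| := Int.one_le_abs (by omega)
    have h7 : 2 ≤ |(l : ℤ) + l' + 1| := by
      rw [abs_of_nonneg (by positivity)]
      rw [Finset.mem_Ioc] at hl hl'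
      omega
    nlinarith
  refine ⟨(Finset.Ioc (M / 2) M).biUnion A, ?_, ?_⟩
  · intro k hk
    rw [Finset.mem_biUnion] at hk
    obtain ⟨l, hl, hk⟩ := hk
    obtain ⟨h1, h2⟩ := hin l hl k hk
    refine ⟨?_, ?_⟩
    · have h3 : (l : ℝ) ≤ M := by exact_mod_cast (Finset.mem_Ioc.1 hl).2
      have h4 : κ * ((l : ℝ) * (l + 1)) ≤ κ * ((M : ℝ) * (M + 1)) := by
        have : (0 : ℝ) ≤ l := Nat.cast_nonneg l
        gcongr
      linarith
    · exact (Finset.mem_filter.1 hk).2
  · rw [Finset.card_biUnion hdisj]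
    push_cast
    have hterm : ∀ l ∈ Finset.Ioc (M / 2) M, γ * b / 8 * Real.sqrt T ≤ ((A l).card : ℝ) := by
      intro l hl
      obtain ⟨h1, h2, h3, h4⟩ := hpq l hl
      have e1 := (abs_le.1 (hJ2 l (hLM l hl) _ h2)).1
      have e2 := (abs_le.1 (hJ2 l (hLM l hl) _ h3)).2
      have h5 := small_gaps hx h1 hε0 (D := 2 * δ) (by linarith)
      have h6 : 2 * δ / ε = γ * b / 16 * Real.sqrt T := by
        rw [hε, hC]
        field_simp
        ring
      have h7 : ((J l).card : ℝ) ≤ (q l : ℝ) - p l + 1 := by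
        have : (((q l - p l : ℕ) : ℕ) : ℝ) = (q l : ℝ) - p l := Nat.cast_sub h1
        rw [← this]
        exact_mod_cast h4
      have h8 := hJ1 l (hLM l hl)
      have h9 := hl2 l hl
      rw [h6] at h5
      have h10 : γ * b / 4 * Real.sqrt T = 4 * (γ * b / 16 * Real.sqrt T) := by ring
      have h11 : γ * b / 8 * Real.sqrt T = 2 * (γ * b / 16 * Real.sqrt T) := by ring
      rw [h11]
      have h12 : ((A l).card : ℝ) = (((Finset.Ico (p l) (q l)).filter fun k => x (k + 1) - x k < ε).card : ℝ) := rfl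
      rw [h12]
      linarith
    have hcard : (M : ℝ) / 2 ≤ (Finset.Ioc (M / 2) M).card := by
      rw [Nat.card_Ioc]
      have h1 : M ≤ 2 * (M - M / 2) := by omega
      have : (M : ℝ) ≤ 2 * ((M - M / 2 : ℕ) : ℝ) := by exact_mod_cast h1
      linarith
    calc γ * b ^ 2 / 32 * T = (b / 4 * Real.sqrt T) * (γ * b / 8 * Real.sqrt T) := by
          have : T = Real.sqrt T * Real.sqrt T := (Real.mul_self_sqrt hT0.le).symm
          rw [this]
          simp only [Real.sqrt_mul_self hsT.le]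
          ring
      _ ≤ (Finset.Ioc (M / 2) M).card * (γ * b / 8 * Real.sqrt T) := by
          apply mul_le_mul_of_nonneg_right _ (by positivity)
          linarith
      _ = ∑ l ∈ Finset.Ioc (M / 2) M, γ * b / 8 * Real.sqrt T := by
          rw [Finset.sum_const, nsmul_eq_mul]
      _ ≤ _ := Finset.sum_le_sum hterm

end Pool.Agent.L7h22.SB
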