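import Pool.Agent.L7h70.SB.Stm0

/-!
# Project SB, [POL]: polar coordinates
-/

set_option autoImplicit false

open Set Filter Topology MeasureTheory
open scoped Real ContDiff

noncomputable section

namespace Pool.Agent.L7h22.SB

open Pool.Agent.L7h70.SB

/-! ### Polar coordinates -/

lemma integral_exp_sub (g : ℝ → ℝ) :
    ∫ r in Ioi (0 : ℝ), r * g (Real.log r) = ∫ t, Real.exp (2 * t) * g t := by
  have h := integral_image_eq_integral_abs_deriv_smul (s := univ) (f := Real.exp) (f' := Real.exp)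
    MeasurableSet.univ (fun x _ => (Real.hasDerivAt_exp x).hasDerivWithinAt)
    Real.exp_injective.injOn (fun r => r * g (Real.log r))
  rw [image_univ, Real.range_exp] at h
  rw [h, setIntegral_univ]
  congr 1
  funext t
  rw [abs_of_pos (Real.exp_pos t), smul_eq_mul, Real.log_exp, two_mul, Real.exp_add]
  ring

lemma polar (g k : ℝ → ℝ) : ∫ z : ℂ, g (Real.log ‖z‖) * k (Complex.arg z) =
    (∫ t, Real.exp (2 * t) * g t) * ∫ θ in Ioo (-π) π, k θ := by
  rw [← Complex.integral_comp_polarCoord_symm]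
  have h1 : ∫ p in polarCoord.target, p.1 • (g (Real.log ‖Complex.polarCoord.symm p‖) *
      k (Complex.arg (Complex.polarCoord.symm p))) =
      ∫ p in Ioi (0 : ℝ) ×ˢ Ioo (-π) π, (p.1 * g (Real.log p.1)) * k p.2 := by
    apply setIntegral_congr_fun (measurableSet_Ioi.prod measurableSet_Ioo)
    rintro ⟨r, θ⟩ ⟨hr, hθ⟩
    simp only [mem_Ioi] at hr
    simp only
    have e : Complex.polarCoord.symm (r, θ) = r * (Real.cos θ + Real.sin θ * Complex.I) :=
      Complex.polarCoord_symm_apply _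
    have h2 : ‖Complex.polarCoord.symm (r, θ)‖ = r := by
      rw [Complex.norm_polarCoord_symm]
      exact abs_of_pos hr
    have h3 : Complex.arg (Complex.polarCoord.symm (r, θ)) = θ := by
      rw [e]
      push_cast
      exact Complex.arg_mul_cos_add_sin_mul_I hr ⟨hθ.1, hθ.2.le⟩
    rw [h2, h3, smul_eq_mul]
    ring
  rw [h1, Measure.volume_eq_prod, setIntegral_prod_mul (fun r => r * g (Real.log r)) k,
    integral_exp_sub]

lemma int_cos {k : ℤ} (hk : k ≠ 0) : ∫ θ in (-π)..π, Real.cos (k * θ) = 0 := by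
  have hk' : (k : ℝ) ≠ 0 := by exact_mod_cast hk
  rw [intervalIntegral.integral_comp_mul_left (fun x => Real.cos x) hk', integral_cos]
  have h1 : Real.sin (k * π) = 0 := Real.sin_int_mul_pi k
  have h2 : Real.sin (k * -π) = 0 := by rw [mul_neg, Real.sin_neg, h1, neg_zero]
  rw [h1, h2, sub_zero, smul_zero]

lemma int_cc {m n : ℕ} (hm : 1 ≤ m) (hn : 1 ≤ n) :
    ∫ θ in Ioo (-π) π, Real.cos (m * θ) * Real.cos (n * θ) = if m = n then π else 0 := by
  rw [← integral_Ioc_eq_integral_Ioo, ← intervalIntegral.integral_of_le (by linarith [Real.pi_pos])]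
  have h1 : ∀ θ : ℝ, Real.cos (m * θ) * Real.cos (n * θ) =
      (Real.cos (((m - n : ℤ) : ℝ) * θ) + Real.cos (((m + n : ℤ) : ℝ) * θ)) / 2 := by
    intro θ
    have e1 : ((m - n : ℤ) : ℝ) * θ = m * θ - n * θ := by push_cast; ring
    have e2 : ((m + n : ℤ) : ℝ) * θ = m * θ + n * θ := by push_cast; ring
    rw [e1, e2, Real.cos_sub, Real.cos_add]
    ring
  simp_rw [h1]
  rw [intervalIntegral.integral_div, intervalIntegral.integral_add
    (Continuous.intervalIntegrable (by fun_prop) _ _) (Continuous.intervalIntegrable (by fun_prop) _ _)]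
  rw [int_cos (k := (m + n : ℤ)) (by omega)]
  split_ifs with h
  · subst h
    simp
  · rw [int_cos (k := (m - n : ℤ)) (by omega)]
    simp

/-! ### The functions -/

lemma vf_eq (F : ℝ → ℝ) (m : ℕ) {z : ℂ} (hz : z ≠ 0) :
    vf F m z = F (Real.log ‖z‖) * Real.cos (m * Complex.arg z) := by
  unfold vf
  have h1 : (z ^ m).re = ‖z‖ ^ m * Real.cos (m * Complex.arg z) := by
    have h2 : z ^ m = ((‖z‖ ^ m : ℝ) : ℂ) * Complex.exp ((m * Complex.arg z : ℝ) * Complex.I) := by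
      conv_lhs => rw [← Complex.norm_mul_exp_arg_mul_I z]
      rw [mul_pow, ← Complex.exp_nat_mul]
      push_cast
      ring_nf
    rw [h2, Complex.re_ofReal_mul, Complex.exp_ofReal_mul_I_re]
  rw [h1]
  have h3 : ‖z‖ ≠ 0 := norm_ne_zero_iff.2 hz
  rw [inv_pow, ← mul_assoc (‖z‖ ^ m)⁻¹, inv_mul_cancel₀ (pow_ne_zero m h3), one_mul]

lemma rho_eq {z : ℂ} (hz : z ≠ 0) :
    rho z = Real.exp (-(2 * Real.log ‖z‖)) / Real.cosh (Real.log ‖z‖) ^ 2 := by
  have h3 : 0 < ‖z‖ := norm_pos_iff.2 hz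
  unfold rho
  rw [Real.cosh_log h3, Real.exp_neg, two_mul, Real.exp_add, Real.exp_log h3]
  field_simp
  ring

lemma ae_ne : ∀ᵐ z : ℂ, z ≠ 0 := by
  rw [ae_iff]
  simp

theorem orth (F G : ℝ → ℝ) {m n : ℕ} (hm : 1 ≤ m) (hn : 1 ≤ n) :
    ∫ z, rho z * (vf F m z * vf G n z) =
        if m = n then π * ∫ t, F t * G t / Real.cosh t ^ 2 else 0 := by
  have h1 : ∫ z, rho z * (vf F m z * vf G n z) =
      ∫ z : ℂ, (fun t => Real.exp (-(2 * t)) / Real.cosh t ^ 2 * (F t * G t)) (Real.log ‖z‖) *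
        (fun θ => Real.cos (m * θ) * Real.cos (n * θ)) (Complex.arg z) := by
    apply integral_congr_ae
    filter_upwards [ae_ne] with z hz
    rw [vf_eq F m hz, vf_eq G n hz, rho_eq hz]
    ring
  rw [h1, polar (fun t => Real.exp (-(2 * t)) / Real.cosh t ^ 2 * (F t * G t))
    (fun θ => Real.cos (m * θ) * Real.cos (n * θ)), int_cc hm hn]
  have h2 : ∀ t : ℝ, Real.exp (2 * t) * (Real.exp (-(2 * t)) / Real.cosh t ^ 2 * (F t * G t)) =
      F t * G t / Real.cosh t ^ 2 := by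
    intro t
    rw [Real.exp_neg]
    have := Real.exp_pos (2 * t)
    field_simp
  simp_rw [h2]
  split_ifs
  · ring
  · rw [mul_zero]

/-! ### Smoothness and support -/

lemma vf_supp {F : ℝ → ℝ} {m : ℕ} (hm : 1 ≤ m) {z : ℂ} (h : vf F m z ≠ 0) :
    z ≠ 0 ∧ Real.log ‖z‖ ∈ tsupport F := by
  have hz : z ≠ 0 := by
    rintro rfl
    apply h
    unfold vf
    have : ((0 : ℂ) ^ m).re = 0 := by
      rw [zero_pow (by omega)]
      rfl
    rw [this, mul_zero, mul_zero]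
  refine ⟨hz, subset_tsupport _ ?_⟩
  intro h0
  apply h
  unfold vf
  rw [h0, zero_mul]

lemma tsupp {η : ℝ} {F : ℝ → ℝ} {m : ℕ} (hm : 1 ≤ m) (hF : tsupport F ⊆ Ioo (-η) η) :
    tsupport (vf F m) ⊆ {z | Real.exp (-η) < ‖z‖ ∧ ‖z‖ < Real.exp η} := by
  have hK : IsCompact (tsupport F) :=
    isCompact_Icc.of_isClosed_subset (isClosed_tsupport F) (hF.trans Ioo_subset_Icc_self)
  rcases (tsupport F).eq_empty_or_nonempty with h0 | hne
  · have h1 : vf F m = 0 := by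
      funext z
      by_contra h
      have := (vf_supp hm h).2
      rw [h0] at this
      exact this
    rw [h1]
    simp
  have ha := hK.sInf_mem hne
  have hb := hK.sSup_mem hne
  set a := sInf (tsupport F)
  set b := sSup (tsupport F)
  have hsub : tsupport F ⊆ Icc a b := fun t ht => ⟨csInf_le hK.bddBelow ht, le_csSup hK.bddAbove ht⟩
  have hcl : IsClosed {z : ℂ | Real.exp a ≤ ‖z‖ ∧ ‖z‖ ≤ Real.exp b} :=
    (isClosed_le continuous_const continuous_norm).inter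
      (isClosed_le continuous_norm continuous_const)
  have h1 : tsupport (vf F m) ⊆ {z : ℂ | Real.exp a ≤ ‖z‖ ∧ ‖z‖ ≤ Real.exp b} := by
    apply closure_minimal _ hcl
    intro z hz
    obtain ⟨hz0, hz1⟩ := vf_supp hm hz
    have hz2 := hsub hz1
    have h3 : 0 < ‖z‖ := norm_pos_iff.2 hz0
    exact ⟨(Real.le_log_iff_exp_le h3).1 hz2.1, (Real.log_le_iff_le_exp h3).1 hz2.2⟩
  refine h1.trans ?_
  rintro z ⟨hz1, hz2⟩
  exact ⟨(Real.exp_lt_exp.2 (hF ha).1).trans_le hz1, hz2.trans_lt (Real.exp_lt_exp.2 (hF hb).2)⟩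

lemma smooth {η : ℝ} {F : ℝ → ℝ} {m : ℕ} (hm : 1 ≤ m) (hFs : ContDiff ℝ ∞ F)
    (hF : tsupport F ⊆ Ioo (-η) η) : ContDiff ℝ ∞ (vf F m) := by
  rw [contDiff_iff_contDiffAt]
  intro z
  by_cases hz : z = 0
  · subst hz
    have h1 : (0 : ℂ) ∉ tsupport (vf F m) := by
      intro h
      have := (tsupp hm hF h).1
      rw [norm_zero] at this
      exact absurd this (not_lt.2 (Real.exp_pos _).le)
    have h2 : vf F m =ᶠ[𝓝 0] 0 := notMem_tsupport_iff_eventuallyEq.1 h1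
    exact (contDiffAt_const (c := (0 : ℝ))).congr_of_eventuallyEq h2
  · have hn : ContDiffAt ℝ ∞ (fun z : ℂ => ‖z‖) z := contDiffAt_norm ℝ hz
    have hn0 : ‖z‖ ≠ 0 := norm_ne_zero_iff.2 hz
    have h1 : ContDiffAt ℝ ∞ (fun z : ℂ => F (Real.log ‖z‖)) z :=
      hFs.contDiffAt.comp z (hn.log hn0)
    have h2 : ContDiffAt ℝ ∞ (fun z : ℂ => ‖z‖⁻¹ ^ m) z := (hn.inv hn0).pow m
    have h3 : ContDiffAt ℝ ∞ (fun z : ℂ => (z ^ m).re) z :=
      Complex.reCLM.contDiff.contDiffAt.comp z ((contDiff_id.pow m).contDiffAt)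
    exact h1.mul (h2.mul h3)

/-! ### The Laplacian -/

/-- the derivative of `log |z|` -/
def L1 (z : ℂ) : ℂ →L[ℝ] ℝ := (Complex.normSq z)⁻¹ • (z.re • Complex.reCLM + z.im • Complex.imCLM)

lemma nsq_ne {z : ℂ} (hz : z ≠ 0) : z.re * z.re + z.im * z.im ≠ 0 := by
  rw [← Complex.normSq_apply]
  exact Complex.normSq_pos.2 hz |>.ne'

lemma log_eq (z : ℂ) : Real.log ‖z‖ = 1 / 2 * Real.log (z.re * z.re + z.im * z.im) := by
  rw [← Complex.normSq_apply, Complex.normSq_eq_norm_sq, Real.log_pow]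
  push_cast
  ring

lemma hd_x (z : ℂ) : HasFDerivAt (fun z : ℂ => z.re) Complex.reCLM z := Complex.reCLM.hasFDerivAt

lemma hd_y (z : ℂ) : HasFDerivAt (fun z : ℂ => z.im) Complex.imCLM z := Complex.imCLM.hasFDerivAt

lemma hd_nsq (z : ℂ) : HasFDerivAt (fun z : ℂ => z.re * z.re + z.im * z.im)
    ((2 * z.re) • Complex.reCLM + (2 * z.im) • Complex.imCLM) z := by
  have h : HasFDerivAt (fun z : ℂ => z.re * z.re + z.im * z.im) _ z :=
    ((hd_x z).mul (hd_x z)).add ((hd_y z).mul (hd_y z))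
  refine h.congr_fderiv ?_
  ext v
  simp
  ring

lemma hd_log {z : ℂ} (hz : z ≠ 0) : HasFDerivAt (fun z : ℂ => Real.log ‖z‖) (L1 z) z := by
  have h1 : HasFDerivAt (fun z : ℂ => 1 / 2 * Real.log (z.re * z.re + z.im * z.im)) _ z :=
    ((hd_nsq z).log (nsq_ne hz)).const_mul (1 / 2)
  have h2 : (fun z : ℂ => Real.log ‖z‖) =
      fun z : ℂ => 1 / 2 * Real.log (z.re * z.re + z.im * z.im) := funext log_eq
  rw [h2]
  refine h1.congr_fderiv ?_
  have := nsq_ne hz
  unfold L1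
  rw [Complex.normSq_apply]
  ext v
  simp
  field_simp

lemma hd_pow (m : ℕ) (z : ℂ) : HasFDerivAt (fun z : ℂ => z ^ m)
    ((ContinuousLinearMap.toSpanSingleton ℂ (m * z ^ (m - 1) : ℂ)).restrictScalars ℝ) z :=
  (hasDerivAt_pow m z).hasFDerivAt.restrictScalars ℝ

lemma hd_re (m : ℕ) (z : ℂ) : HasFDerivAt (fun z : ℂ => (z ^ m).re)
    (Complex.reCLM.comp
      ((ContinuousLinearMap.toSpanSingleton ℂ (m * z ^ (m - 1) : ℂ)).restrictScalars ℝ)) z :=
  Complex.reCLM.hasFDerivAt.comp z (hd_pow m z)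

lemma hd_im (m : ℕ) (z : ℂ) : HasFDerivAt (fun z : ℂ => (z ^ m).im)
    (Complex.imCLM.comp
      ((ContinuousLinearMap.toSpanSingleton ℂ (m * z ^ (m - 1) : ℂ)).restrictScalars ℝ)) z :=
  Complex.imCLM.hasFDerivAt.comp z (hd_pow m z)

lemma hd_G {G : ℝ → ℝ} (hG : Differentiable ℝ G) {z : ℂ} (hz : z ≠ 0) :
    HasFDerivAt (fun z : ℂ => G (Real.log ‖z‖)) (deriv G (Real.log ‖z‖) • L1 z) z := by
  exact (hG (Real.log ‖z‖)).hasDerivAt.comp_hasFDerivAt z (hd_log hz)

/-- first derivatives -/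
lemma fd1 {G : ℝ → ℝ} (hG : Differentiable ℝ G) (m : ℕ) {z : ℂ} (hz : z ≠ 0) :
    fderiv ℝ (fun z : ℂ => G (Real.log ‖z‖) * (z ^ m).re) z 1 =
      deriv G (Real.log ‖z‖) * (z.re / (z.re * z.re + z.im * z.im) * (z ^ m).re) +
        G (Real.log ‖z‖) * (m * (z ^ (m - 1)).re) ∧
    fderiv ℝ (fun z : ℂ => G (Real.log ‖z‖) * (z ^ m).re) z Complex.I =
      deriv G (Real.log ‖z‖) * (z.im / (z.re * z.re + z.im * z.im) * (z ^ m).re) -
        G (Real.log ‖z‖) * (m * (z ^ (m - 1)).im) := by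
  have h0 : HasFDerivAt (fun z : ℂ => G (Real.log ‖z‖) * (z ^ m).re) _ z :=
    (hd_G hG hz).mul (hd_re m z)
  have h := h0.fderiv
  constructor
  · rw [h]
    simp [L1, Complex.normSq_apply]
    ring
  · rw [h]
    simp [L1, Complex.normSq_apply]
    ring

/-- second derivatives -/
lemma fd2 {G : ℝ → ℝ} (hG : Differentiable ℝ G) (hG' : Differentiable ℝ (deriv G)) (m : ℕ) {z : ℂ}
    (hz : z ≠ 0) : lap (fun z : ℂ => G (Real.log ‖z‖) * (z ^ m).re) z =
      (deriv (deriv G) (Real.log ‖z‖) + 2 * m * deriv G (Real.log ‖z‖)) * (z ^ m).re /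
        (z.re * z.re + z.im * z.im) := by
  have hN := nsq_ne hz
  have hev : ∀ᶠ y : ℂ in 𝓝 z, y ≠ 0 := isOpen_ne.mem_nhds hz
  have e1 : (fun y => fderiv ℝ (fun z : ℂ => G (Real.log ‖z‖) * (z ^ m).re) y 1) =ᶠ[𝓝 z]
      fun z : ℂ => deriv G (Real.log ‖z‖) * (z.re / (z.re * z.re + z.im * z.im) * (z ^ m).re) +
        G (Real.log ‖z‖) * (m * (z ^ (m - 1)).re) := by
    filter_upwards [hev] with y hy
    exact (fd1 hG m hy).1
  have e2 : (fun y => fderiv ℝ (fun z : ℂ => G (Real.log ‖z‖) * (z ^ m).re) y Complex.I) =ᶠ[𝓝 z]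
      fun z : ℂ => deriv G (Real.log ‖z‖) * (z.im / (z.re * z.re + z.im * z.im) * (z ^ m).re) -
        G (Real.log ‖z‖) * (m * (z ^ (m - 1)).im) := by
    filter_upwards [hev] with y hy
    exact (fd1 hG m hy).2
  have hinv : HasFDerivAt (fun z : ℂ => (z.re * z.re + z.im * z.im)⁻¹) _ z :=
    (hasDerivAt_inv hN).comp_hasFDerivAt z (hd_nsq z)
  have h1 : HasFDerivAt (fun z : ℂ => deriv G (Real.log ‖z‖) *
      (z.re * (z.re * z.re + z.im * z.im)⁻¹ * (z ^ m).re) +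
        G (Real.log ‖z‖) * (m * (z ^ (m - 1)).re)) _ z :=
    ((hd_G hG' hz).mul (((hd_x z).mul hinv).mul (hd_re m z))).add
      ((hd_G hG hz).mul ((hd_re (m - 1) z).const_mul (m : ℝ)))
  have h2 : HasFDerivAt (fun z : ℂ => deriv G (Real.log ‖z‖) *
      (z.im * (z.re * z.re + z.im * z.im)⁻¹ * (z ^ m).re) -
        G (Real.log ‖z‖) * (m * (z ^ (m - 1)).im)) _ z :=
    ((hd_G hG' hz).mul (((hd_y z).mul hinv).mul (hd_re m z))).sub
      ((hd_G hG hz).mul ((hd_im (m - 1) z).const_mul (m : ℝ)))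
  unfold lap
  rw [e1.fderiv_eq, e2.fderiv_eq]
  simp only [div_eq_mul_inv]
  rw [h1.fderiv, h2.fderiv]
  rcases m with _ | k
  · simp [L1, Complex.normSq_apply]
    clear h1 h2 e1 e2 hinv
    generalize deriv (deriv G) (Real.log ‖z‖) = G2
    generalize deriv G (Real.log ‖z‖) = G1
    generalize z.re = x at hN ⊢
    generalize z.im = y at hN ⊢
    obtain ⟨N, hNd⟩ : ∃ N, N = x * x + y * y := ⟨_, rfl⟩
    rw [← hNd] at hN ⊢
    have hx : x * x = N - y * y := by rw [hNd]; ring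
    field_simp
    linear_combination (-2 * G1 + G2) * hx
  have hk : (z ^ (k + 1)).re = z.re * (z ^ k).re - z.im * (z ^ k).im := by
    rw [pow_succ', Complex.mul_re]
  clear e1 e2
  simp only [Nat.add_sub_cancel, ContinuousLinearMap.add_apply, ContinuousLinearMap.sub_apply,
    ContinuousLinearMap.smul_apply, ContinuousLinearMap.comp_apply,
    ContinuousLinearMap.coe_restrictScalars', ContinuousLinearMap.toSpanSingleton_apply,
    Complex.reCLM_apply, Complex.imCLM_apply, smul_eq_mul, L1, Complex.normSq_apply, Pi.mul_apply,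
    Complex.one_re, Complex.one_im, Complex.I_re, Complex.I_im, one_mul, mul_zero, mul_one,
    Complex.mul_re, Complex.mul_im, zero_mul, add_zero, zero_add, sub_zero, zero_sub,
    Complex.natCast_re, Complex.natCast_im, hk]
  clear h1 h2 hinv
  generalize deriv (deriv G) (Real.log ‖z‖) = G2
  generalize deriv G (Real.log ‖z‖) = G1
  generalize G (Real.log ‖z‖) = G0
  generalize (z ^ k).re = A
  generalize (z ^ k).im = B
  generalize (z ^ (k - 1)).re = C
  generalize (z ^ (k - 1)).im = D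
  generalize z.re = x at hN ⊢
  generalize z.im = y at hN ⊢
  push_cast
  obtain ⟨N, hNd⟩ : ∃ N, N = x * x + y * y := ⟨_, rfl⟩
  rw [← hNd] at hN ⊢
  have hx : x * x = N - y * y := by rw [hNd]; ring
  field_simp
  linear_combination (-2 * G1 + G2) * (x * A - y * B) * hx

/-- the Laplacian in polar coordinates -/
lemma lap_vf {F : ℝ → ℝ} (hF : ContDiff ℝ ∞ F) (m : ℕ) {z : ℂ} (hz : z ≠ 0) :
    lap (vf F m) z = Real.exp (-(2 * Real.log ‖z‖)) *
      (deriv (deriv F) (Real.log ‖z‖) - m ^ 2 * F (Real.log ‖z‖)) *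
        Real.cos (m * Complex.arg z) := by
  set G : ℝ → ℝ := fun t => F t * Real.exp (-(m * t)) with hG
  have hF1 : Differentiable ℝ F := hF.differentiable (by simp)
  have hF2 : Differentiable ℝ (deriv F) := (contDiff_infty_iff_deriv.1 hF).2.differentiable (by simp)
  have hE : ∀ t, HasDerivAt (fun t : ℝ => Real.exp (-(m * t))) (-m * Real.exp (-(m * t))) t := by
    intro t
    have h0 : HasDerivAt (fun t : ℝ => (m : ℝ) * t) (m * 1) t := (hasDerivAt_id t).const_mul (m : ℝ)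
    have h1 : HasDerivAt (fun t : ℝ => -((m : ℝ) * t)) (-(m * 1)) t := h0.neg
    exact h1.exp.congr_deriv (by ring)
  have hG1 : ∀ t, HasDerivAt G ((deriv F t - m * F t) * Real.exp (-(m * t))) t := by
    intro t
    have h : HasDerivAt G _ t := (hF1 t).hasDerivAt.mul (hE t)
    exact h.congr_deriv (by ring)
  have hGd : deriv G = fun t => (deriv F t - m * F t) * Real.exp (-(m * t)) :=
    funext fun t => (hG1 t).deriv
  have hG2 : ∀ t, HasDerivAt (deriv G)
      ((deriv (deriv F) t - 2 * m * deriv F t + m ^ 2 * F t) * Real.exp (-(m * t))) t := by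
    intro t
    rw [hGd]
    have h : HasDerivAt (fun t => (deriv F t - m * F t) * Real.exp (-(m * t))) _ t :=
      ((hF2 t).hasDerivAt.sub ((hF1 t).hasDerivAt.const_mul (m : ℝ))).mul (hE t)
    exact h.congr_deriv (by simp only [Pi.sub_apply]; ring)
  have hev : ∀ᶠ y : ℂ in 𝓝 z, y ≠ 0 := isOpen_ne.mem_nhds hz
  have e0 : ∀ y : ℂ, y ≠ 0 → vf F m y = G (Real.log ‖y‖) * (y ^ m).re := by
    intro y hy
    have h3 : 0 < ‖y‖ := norm_pos_iff.2 hy
    unfold vf
    rw [hG]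
    simp only
    have : Real.exp (-(m * Real.log ‖y‖)) = ‖y‖⁻¹ ^ m := by
      rw [Real.exp_neg, ← Real.log_pow, Real.exp_log (pow_pos h3 m), inv_pow]
    rw [this]
    ring
  have e1 : vf F m =ᶠ[𝓝 z] fun z : ℂ => G (Real.log ‖z‖) * (z ^ m).re := by
    filter_upwards [hev] with y hy
    exact e0 y hy
  have e2 : lap (vf F m) z = lap (fun z : ℂ => G (Real.log ‖z‖) * (z ^ m).re) z := by
    unfold lap
    have e3 : (fun y => fderiv ℝ (vf F m) y) =ᶠ[𝓝 z]
        fun y => fderiv ℝ (fun z : ℂ => G (Real.log ‖z‖) * (z ^ m).re) y := e1.fderiv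
    have e4 : (fun y => fderiv ℝ (vf F m) y 1) =ᶠ[𝓝 z]
        fun y => fderiv ℝ (fun z : ℂ => G (Real.log ‖z‖) * (z ^ m).re) y 1 := by
      filter_upwards [e3] with y hy
      rw [hy]
    have e5 : (fun y => fderiv ℝ (vf F m) y Complex.I) =ᶠ[𝓝 z]
        fun y => fderiv ℝ (fun z : ℂ => G (Real.log ‖z‖) * (z ^ m).re) y Complex.I := by
      filter_upwards [e3] with y hy
      rw [hy]
    rw [e4.fderiv_eq, e5.fderiv_eq]
  rw [e2, fd2 (fun t => (hG1 t).differentiableAt) (fun t => (hG2 t).differentiableAt) m hz,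
    (hG2 _).deriv, (hG1 _).deriv]
  have h3 : 0 < ‖z‖ := norm_pos_iff.2 hz
  have h4 : (z ^ m).re = ‖z‖ ^ m * Real.cos (m * Complex.arg z) := by
    have h5 := vf_eq (fun _ => 1) m hz
    unfold vf at h5
    rw [one_mul, one_mul, inv_pow] at h5
    rw [← h5, mul_inv_cancel_left₀ (pow_ne_zero m h3.ne')]
  have h6 : z.re * z.re + z.im * z.im = ‖z‖ ^ 2 := by
    rw [← Complex.normSq_apply, Complex.normSq_eq_norm_sq]
  have h7 : Real.exp (-(m * Real.log ‖z‖)) = (‖z‖ ^ m)⁻¹ := by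
    rw [Real.exp_neg, ← Real.log_pow, Real.exp_log (pow_pos h3 m)]
  have h8 : Real.exp (-(2 * Real.log ‖z‖)) = (‖z‖ ^ 2)⁻¹ := by
    rw [Real.exp_neg, two_mul, Real.exp_add, Real.exp_log h3, pow_two]
  rw [h4, h6, h7, h8]
  have h9 := pow_ne_zero m h3.ne'
  field_simp
  ring

theorem main (F : ℝ → ℝ) {m : ℕ} (hm : 1 ≤ m) (hF : ContDiff ℝ ∞ F) (lam : ℝ) :
    ∫ z, (lap (vf F m) z + lam * (rho z * vf F m z)) ^ 2 / rho z =
        π * ∫ t, (deriv (deriv F) t - ((m : ℝ) ^ 2 - lam / Real.cosh t ^ 2) * F t) ^ 2 *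
          Real.cosh t ^ 2 := by
  have h1 : ∫ z, (lap (vf F m) z + lam * (rho z * vf F m z)) ^ 2 / rho z =
      ∫ z : ℂ, (fun t => Real.exp (-(2 * t)) * ((deriv (deriv F) t -
        ((m : ℝ) ^ 2 - lam / Real.cosh t ^ 2) * F t) ^ 2 * Real.cosh t ^ 2)) (Real.log ‖z‖) *
        (fun θ => Real.cos (m * θ) * Real.cos (m * θ)) (Complex.arg z) := by
    apply integral_congr_ae
    filter_upwards [ae_ne] with z hz
    rw [vf_eq F m hz, rho_eq hz, lap_vf hF m hz]
    have h2 := (Real.cosh_pos (Real.log ‖z‖)).ne'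
    have h3 := (Real.exp_pos (-(2 * Real.log ‖z‖))).ne'
    field_simp
    ring
  rw [h1, polar (fun t => Real.exp (-(2 * t)) * ((deriv (deriv F) t -
        ((m : ℝ) ^ 2 - lam / Real.cosh t ^ 2) * F t) ^ 2 * Real.cosh t ^ 2))
    (fun θ => Real.cos (m * θ) * Real.cos (m * θ)), int_cc hm hm, if_pos rfl]
  have h2 : ∀ t : ℝ, Real.exp (2 * t) * (Real.exp (-(2 * t)) * ((deriv (deriv F) t -
        ((m : ℝ) ^ 2 - lam / Real.cosh t ^ 2) * F t) ^ 2 * Real.cosh t ^ 2)) =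
      (deriv (deriv F) t - ((m : ℝ) ^ 2 - lam / Real.cosh t ^ 2) * F t) ^ 2 * Real.cosh t ^ 2 := by
    intro t
    rw [← mul_assoc, ← Real.exp_add]
    simp
  simp_rw [h2]
  ring

theorem s_POL : S_POL := by
  intro η hη
  refine ⟨fun F m hm hF hs => ⟨smooth hm hF hs, tsupp hm hs, main F hm hF⟩, ?_⟩
  intro F G m n hm hn _ _ _ _
  exact orth F G hm hn

end Pool.Agent.L7h22.SB
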