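import Pool.Agent.L7h70.SB.Stm0

/-!
# Project SB, [SPEC]: quasimodes and clusters
-/

set_option autoImplicit false

open Set Filter Topology Finset

namespace Pool.Agent.L7h22.SB

open Pool.Agent.L7h70.SB

theorem s_SPEC : S_SPEC := by
  intro N lam E δ c d D hδ hc hd hcd hD
  by_cases hA : ∃ J : Finset ℕ, N ≤ J.card ∧ ∀ j ∈ J, |lam j - E| ≤ δ
  · obtain ⟨J, hJ, hJ'⟩ := hA
    obtain ⟨J', hJ1, hJ2⟩ := Finset.exists_subset_card_eq hJ
    exact ⟨J', hJ2, fun j hj => hJ' j (hJ1 hj)⟩
  exfalso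
  have hfin : {j | |lam j - E| ≤ δ}.Finite := by
    by_contra h
    obtain ⟨J, hJ, hJc⟩ := Set.Infinite.exists_subset_card_eq h N
    exact hA ⟨J, hJc.ge, fun j hj => hJ hj⟩
  set A := hfin.toFinset with hAdef
  have hmem : ∀ j, j ∈ A ↔ |lam j - E| ≤ δ := fun j => by rw [hAdef, Set.Finite.mem_toFinset]; rfl
  have hAc : A.card < N := by
    by_contra h
    exact hA ⟨A, not_lt.1 h, fun j hj => (hmem j).1 hj⟩
  let f : (Fin N → ℝ) →ₗ[ℝ] (A → ℝ) :=
    { toFun := fun a j => ∑ k, a k * c k j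
      map_add' := fun a b => by
        funext j
        simp only [Pi.add_apply, add_mul, sum_add_distrib]
      map_smul' := fun t a => by
        funext j
        simp only [Pi.smul_apply, smul_eq_mul, RingHom.id_apply, mul_sum, mul_assoc] }
  have hker : LinearMap.ker f ≠ ⊥ := by
    apply LinearMap.ker_ne_bot_of_finrank_lt
    rw [Module.finrank_fintype_fun_eq_card, Module.finrank_fintype_fun_eq_card, Fintype.card_coe,
      Fintype.card_fin]
    exact hAc
  obtain ⟨a, ha, ha0⟩ := Submodule.exists_mem_ne_zero_of_ne_bot hker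
  have ha' : ∀ j ∈ A, ∑ k, a k * c k j = 0 := fun j hj => congrFun ha ⟨j, hj⟩
  set s := ∑ k, a k ^ 2 with hs
  have hs0 : 0 < s := by
    obtain ⟨k, hk⟩ := Function.ne_iff.1 ha0
    have h1 : 0 < a k ^ 2 := by
      have : a k ≠ 0 := hk
      positivity
    exact lt_of_lt_of_le h1 (Finset.single_le_sum (f := fun k => a k ^ 2)
      (fun i _ => sq_nonneg (a i)) (Finset.mem_univ k))
  have h1 : HasSum (fun j => (∑ k, a k * c k j) ^ 2) s := by
    have h2 : HasSum (fun j => ∑ k, ∑ k', a k * a k' * (c k j * c k' j))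
        (∑ k, ∑ k', a k * a k' * (if k = k' then 1 else 0)) :=
      hasSum_sum fun k _ => hasSum_sum fun k' _ => (hc k k').mul_left _
    have h3 : (∑ k, ∑ k', a k * a k' * (if k = k' then (1 : ℝ) else 0)) = s := by
      rw [hs]
      refine Finset.sum_congr rfl fun k _ => ?_
      simp [pow_two]
    rw [h3] at h2
    convert h2 using 2 with j
    rw [pow_two, Finset.sum_mul_sum]
    refine Finset.sum_congr rfl fun k _ => Finset.sum_congr rfl fun k' _ => ?_
    ring
  have h4 : HasSum (fun j => s * ∑ k, d k j ^ 2) (s * ∑ k, D k) :=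
    (hasSum_sum fun k _ => hd k).mul_left s
  have h5 : ∀ j, δ ^ 2 * (∑ k, a k * c k j) ^ 2 ≤ s * ∑ k, d k j ^ 2 := by
    intro j
    have hCS : (∑ k, a k * d k j) ^ 2 ≤ s * ∑ k, d k j ^ 2 := Finset.sum_mul_sq_le_sq_mul_sq _ _ _
    by_cases hj : j ∈ A
    · rw [ha' j hj]
      have : 0 ≤ s * ∑ k, d k j ^ 2 := mul_nonneg hs0.le (Finset.sum_nonneg fun k _ => sq_nonneg _)
      simpa using this
    · have h6 : ∑ k, a k * d k j = (lam j - E) * ∑ k, a k * c k j := by
        rw [Finset.mul_sum]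
        refine Finset.sum_congr rfl fun k _ => ?_
        rw [← hcd k j]
        ring
      rw [h6, mul_pow] at hCS
      refine le_trans ?_ hCS
      have h7 : δ < |lam j - E| := by
        by_contra h
        exact hj ((hmem j).2 (not_lt.1 h))
      have h8 : δ ^ 2 ≤ (lam j - E) ^ 2 := by
        rw [← sq_abs (lam j - E)]
        exact pow_le_pow_left₀ hδ.le h7.le 2
      exact mul_le_mul_of_nonneg_right h8 (sq_nonneg _)
  have h9 := hasSum_le h5 (h1.mul_left (δ ^ 2)) h4
  nlinarith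

end Pool.Agent.L7h22.SB
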